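import Pool.Agent.Work.MP_f63b47_lc.GD.AInd

/-!
Hamiltonian cycles in graphs without subgraphs from a finite list: reduction to connected members.

`FG` and `Comp` are defined in `Pool.Agent.Work.MP_f63b47_lc.GD.GDefs`, `HC`, `encGraph`, `NPComplete` in
`Pool.Agent.Work.MP_f63b47_lc.GD.Defs`, `graphOf` and `HasHamCycle` in `Pool.Agent.Work.MP_f63b47_lc.Defs`, the classes P and NP
(with the machines of Mathlib) in `Pool.Agent.Work.PolyTime.NPDefs` and `Pool.Agent.Work.PolyTime.ETR`.
-/

set_option autoImplicit false

namespace Pool.Agent.Results.MP_f63b47_lc.Components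

open SimpleGraph Pool.Agent.Work.PolyTime Pool.Agent.Work.MP_f63b47_lc
  Pool.Agent.Work.MP_f63b47_lc.GD

/-- **Main theorem.** Hamiltonian cycle on the graphs without subgraphs from the finite list `L` is
in P if and only if it is in P for every list `L'` obtained by choosing a connected component of
each member of `L`; and it is NP-complete if it is NP-complete for one of these lists. -/
theorem result (L : List FG) :
    (InP (HC L) ↔ ∀ L', List.Forall₂ Comp L L' → InP (HC L')) ∧
    ((∃ L', List.Forall₂ Comp L L' ∧ NPComplete (HC L')) → NPComplete (HC L)) :=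
  reduction L

end Pool.Agent.Results.MP_f63b47_lc.Components
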