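import Pool.Agent.Work.MP_f63b47_lc.SubRed
import Pool.Agent.Work.MP_f63b47_lc.SubCor

/-!
Hamiltonian cycles in graphs without subgraphs from a finite family none of whose members is a
subgraph of a disjoint union of suns: octagons whose vertices are replaced by gadgets, with an
infinite path attached at each gadget.

`graphOf`, `HasHamCycle` and `HTree` are defined in `Pool.Agent.Work.MP_f63b47_lc.Defs`,
`Gadget`, its graph `Ray`, `OctE` and `GSuns` in `Pool.Agent.Work.MP_f63b47_lc.SubDefs`,
`oneGadget`, `triGadget` and `Cat` in `Pool.Agent.Work.MP_f63b47_lc.SubCor`,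
the class NP and NP-hardness (with the machines of Mathlib) in
`Pool.Agent.Work.PolyTime.NPDefs` and `Pool.Agent.Work.PolyTime.ETR`.
-/

set_option autoImplicit false

namespace Pool.Agent.Results.MP_f63b47_lc.GadgetSuns

open Pool.Agent.Work.PolyTime
open Pool.Agent.Work.MP_f63b47_lc

/-! Encoding of graphs by bit strings. -/

/-- A number is written in unary, `n` as `1010...100`. -/
def encNum : ℕ → List Bool
  | 0 => [false]
  | n + 1 => true :: false :: encNum n

/-- A list of edges is written by writing `1`, `1` and the two ends before each of its elements and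
`0` at the end. -/
def encEdges : List (ℕ × ℕ) → List Bool
  | [] => [false]
  | e :: l => true :: ((true :: (encNum e.1 ++ encNum e.2)) ++ encEdges l)

/-- The bit string of a graph given by the number of vertices and the list of edges. -/
def encGraph (n : ℕ) (E : List (ℕ × ℕ)) : List Bool := true :: (encNum n ++ encEdges E)

/-- The decision problem: given a graph with no subgraph isomorphic to a member of the family `H`,
does it have a Hamiltonian cycle? (The set of the codes of the graphs with the answer yes.) -/
def HamCycleFree {k : ℕ} {m : Fin k → ℕ} (H : ∀ i, SimpleGraph (Fin (m i))) : Set (List Bool) :=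
  {w | ∃ (n : ℕ) (E : List (ℕ × ℕ)), w = encGraph n E ∧ (∀ i, (H i).Free (graphOf n E)) ∧
    HasHamCycle (graphOf n E)}

/-- Completeness for NP under polynomial-time many-one reductions. -/
def NPComplete (L : Set (List Bool)) : Prop := InNP L ∧ NPHard L

/-! The encoding is the one used in the proof. -/

theorem encNum_eq (n : ℕ) : encNum n = (code n).ser := by
  induction n with
  | zero => rfl
  | succ n ih => rw [encNum, ih]; rfl

theorem encEdges_eq (l : List (ℕ × ℕ)) : encEdges l = (code l).ser := by
  induction l with
  | nil => rfl
  | cons e l ih =>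
    rw [encEdges, ih, encNum_eq, encNum_eq]
    rfl

theorem encGraph_eq (n : ℕ) (E : List (ℕ × ℕ)) : encGraph n E = (code (n, E)).ser := by
  rw [encGraph, encNum_eq, encEdges_eq]
  rfl

theorem hamCycleFree_eq {k : ℕ} {m : Fin k → ℕ} (H : ∀ i, SimpleGraph (Fin (m i))) :
    HamCycleFree H = problem (fun _ => True) (Yes H) := by
  ext w
  constructor
  · rintro ⟨n, E, rfl, h1, h2⟩
    exact ⟨(n, E), encGraph_eq n E, trivial, h1, h2⟩
  · rintro ⟨⟨n, E⟩, rfl, -, h1, h2⟩
    exact ⟨n, E, (encGraph_eq n E).symm, h1, h2⟩

/-- **Main theorem.** For all gadgets `G 0, …, G 7` and every finite family of finite graphs none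
of which is a subgraph of the disjoint union of suns with these gadgets, Hamiltonian cycle is
NP-complete on the graphs without subgraphs from the family. For the gadgets with one vertex (suns
made from octagons) no tree `ℍ_j` with `j ≥ 6` is a subgraph of the disjoint union of suns; for
triangles the caterpillar with three consecutive vertices of degree three and five leaves is not;
and for no gadgets the trees `ℍ_j` with `j` at least the number of the vertices of the gadgets. -/
theorem result :
    (∀ (G : Fin 8 → Gadget) (k : ℕ) (m : Fin k → ℕ) (H : ∀ i, SimpleGraph (Fin (m i))),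
      (∀ i, (H i).Free (GSuns G)) → NPComplete (HamCycleFree H)) ∧
    (∀ j : ℕ, 6 ≤ j → (HTree j).Free (GSuns fun _ => oneGadget)) ∧
    Cat.Free (GSuns fun _ => triGadget) ∧
    ∀ (G : Fin 8 → Gadget) (j : ℕ), ∑ p, (G p).r ≤ j → (HTree j).Free (GSuns G) := by
  refine ⟨fun G k m H h => ?_, fun j hj => ?_, cat_free, fun G j hj => htree_freeG G hj⟩
  · rw [hamCycleFree_eq]
    exact ⟨inNP_problem H, nphard_problemG G H h⟩
  · rw [gsuns_one]
    exact htree_free hj

end Pool.Agent.Results.MP_f63b47_lc.GadgetSuns
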