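import Pool.Agent.Work.MP_f63b47_lc.GD.MainB

/-!
Hamiltonian cycles in graphs of girth greater than `g` without the tree `ℍ_j`: the exact threshold.

`FG`, `cycles`, `BTree` are defined in `Pool.Agent.Work.MP_f63b47_lc.GD.GDefs`, `HC`, `encGraph`, `NPComplete` in
`Pool.Agent.Work.MP_f63b47_lc.GD.Defs`, `graphOf`, `HasHamCycle` and `HTree` in `Pool.Agent.Work.MP_f63b47_lc.Defs`, the
classes P and NP (with the machines of Mathlib) in `Pool.Agent.Work.PolyTime.NPDefs` and `Pool.Agent.Work.PolyTime.ETR`.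
-/

set_option autoImplicit false

namespace Pool.Agent.Results.MP_f63b47_lc.GirthSharp

open SimpleGraph Pool.Agent.Work.PolyTime Pool.Agent.Work.MP_f63b47_lc
  Pool.Agent.Work.MP_f63b47_lc.GD

/-- **Main theorem.** Let `ℍ_j ⊆ F ⊆ B_j`, where `B_j` is the full caterpillar, and let `j ≥ 6` or
`g ≥ 6`. Hamiltonian cycle on the `F`-subgraph-free graphs of girth greater than `g` is NP-complete
if there is an even number `m ≥ 8` with `g < m ≤ j + 2`, and in P otherwise. -/
theorem result (j g : ℕ) (hj : 1 ≤ j) (h6 : 6 ≤ j ∨ 6 ≤ g) (F : FG)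
    (h1 : (HTree j).IsContained F.2) (h2 : F.2.IsContained (BTree j)) :
    ((∃ m, Even m ∧ 8 ≤ m ∧ g < m ∧ m ≤ j + 2) → NPComplete (HC (F :: cycles g))) ∧
    ((¬ ∃ m, Even m ∧ 8 ≤ m ∧ g < m ∧ m ≤ j + 2) → InP (HC (F :: cycles g))) :=
  girth_sharp hj h6 F h1 h2

end Pool.Agent.Results.MP_f63b47_lc.GirthSharp
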