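import Pool.Agent.Work.MP_f63b47_lc.GD.MainA

/-!
Hamiltonian cycles in graphs of large girth without subgraphs from a finite list: a dichotomy.

`FG`, `cycles`, `Comb` are defined in `Pool.Agent.Work.MP_f63b47_lc.GD.GDefs`, `HC`, `encGraph`, `NPComplete` in
`Pool.Agent.Work.MP_f63b47_lc.GD.Defs`, `graphOf` and `HasHamCycle` in `Pool.Agent.Work.MP_f63b47_lc.Defs`, the classes P and NP
(with the machines of Mathlib) in `Pool.Agent.Work.PolyTime.NPDefs` and `Pool.Agent.Work.PolyTime.ETR`.
-/

set_option autoImplicit false

namespace Pool.Agent.Results.MP_f63b47_lc.LargeGirth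

open SimpleGraph Pool.Agent.Work.PolyTime Pool.Agent.Work.MP_f63b47_lc
  Pool.Agent.Work.MP_f63b47_lc.GD

/-- **Main theorem.** If no member of the finite list `L` is a subgraph of the infinite comb then
Hamiltonian cycle is NP-complete on the graphs of girth greater than `g` without subgraphs from
`L`, for every `g`; if a member `F` with `n` vertices is a subgraph of the comb then it is in P for
every `g ≥ 3 n`. -/
theorem result (L : List FG) :
    ((∀ F ∈ L, F.2.Free Comb) → ∀ g, NPComplete (HC (L ++ cycles g))) ∧
    ∀ F ∈ L, F.2.IsContained Comb → ∀ g, 3 * F.1 ≤ g → InP (HC (L ++ cycles g)) :=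
  large_girth L

end Pool.Agent.Results.MP_f63b47_lc.LargeGirth
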